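import Pool.Agent.LengthSpec.Main

open UpperHalfPlane MeasureTheory Set
open scoped MatrixGroups Manifold ENNReal Topology

namespace Pool.Agent.Results.MP_731498_gt.NotFinsler

open Pool.Agent.LengthSpec

/-- The length-spectrum metric `dL` on the Teichmüller space of `S = ℍ/Γ` is not Finsler, for every
complete orientable hyperbolic surface `S` of finite area having an essential simple closed curve,
whatever the `C¹` manifold structure on the Teichmüller space. -/
theorem result (Γ : Subgroup SL(2, ℝ)) (hΓ : IsSurfaceGroup Γ)
    (hS : ∃ g : Γ, IsSimpleClosed Γ g)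
    (E : Type*) [NormedAddCommGroup E] [NormedSpace ℝ E] [TopologicalSpace (Teich Γ)]
    [ChartedSpace E (Teich Γ)] [IsManifold 𝓘(ℝ, E) 1 (Teich Γ)] :
    ¬ IsFinsler E (dL Γ) :=
  not_finsler hΓ hS E

end Pool.Agent.Results.MP_731498_gt.NotFinsler
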